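import Pool.Agent.W802.DS.Stms

/-! Project DS: the gluing step. -/

set_option autoImplicit false

namespace W802.DS

open Polynomial Filter Topology

theorem cont_Phi {c p : ℝ} (hp : 1 < p) : Continuous fun a : ℝ × ℝ => Phi c p a.1 a.2 := by
  unfold Phi
  have h : Continuous fun t : ℝ => |t| ^ p :=
    continuous_abs.rpow_const fun _ => Or.inr (by linarith)
  exact (h.comp continuous_snd).sub (continuous_const.mul (h.comp continuous_fst))

theorem cav_congr {f g : ℂ → ℝ} (h : ∀ z : ℂ, ‖z‖ = 1 → f z = g z) : cav f = cav g := by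
  unfold cav
  apply Real.circleAverage_congr_sphere
  intro z hz
  apply h
  simpa using hz

/-- the mean is continuous in a parameter -/
theorem cont_cav {T : Type*} [TopologicalSpace T] [FirstCountableTopology T]
    {K : T × ℂ → ℝ} (hK : Continuous K) : Continuous fun t => cav fun w => K (t, w) := by
  unfold cav Real.circleAverage
  simp only [smul_eq_mul]
  apply Continuous.mul continuous_const
  apply intervalIntegral.continuous_parametric_intervalIntegral_of_continuous'
  exact hK.comp (continuous_fst.prodMk ((continuous_circleMap 0 1).comp continuous_snd))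

theorem gl_eval_zero {D M : ℕ} (hM : 1 ≤ M) (E P : ℂ[X]) : (gl D M E P).eval 0 = 0 := by
  unfold gl
  rw [eval_mul, eval_mul, eval_pow, eval_X, zero_pow (by omega)]
  ring

theorem gl_eval {D M : ℕ} (hM : 1 ≤ M) {E : ℂ[X]} (P : ℂ[X]) {z : ℂ} {η : ℝ}
    (hE : E.eval z = z ^ D * (η : ℂ)) :
    (gl D M E P).eval z = η * (P.eval (z ^ (2 * M + D - 1)) - P.eval 0) := by
  unfold gl
  have h1 : P.eval (z ^ (2 * M + D - 1)) - P.eval 0
      = z ^ (2 * M + D - 1) * P.divX.eval (z ^ (2 * M + D - 1)) := by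
    conv_lhs => rw [← divX_mul_X_add P]
    simp
    ring
  rw [h1]
  simp only [eval_mul, eval_pow, eval_X, eval_comp, hE]
  have h2 : z ^ (2 * M + D - 1) = z ^ (2 * M - 1) * z ^ D := by
    rw [← pow_add]
    congr 1
    omega
  rw [h2]
  ring

theorem glue (hTV : S_TV) (hED : S_ED) (hE : S_E) (hGR : S_GR) : S_GLUE := by
  intro c p hp hc q x1 y1 x2 y2 J hq0 hq1 hsq hA ε hε
  set x0 := q * x2 + (1 - q) * x1 with hx0
  set y0 := q * y2 + (1 - q) * y1 with hy0
  set d := x2 - x1 with hd
  set s := y2 - y1 with hs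
  set e := ε / 20 with he
  have he0 : 0 < e := by positivity
  obtain ⟨m, u, v, hu0, hv0, hui, hgrad, hsm, hJ⟩ := hA e he0
  -- the joint function
  let G : ℝ × ℂ → ℝ := fun a => Phi c p (x0 + d * a.1 + (1 - q - a.1) * (((u 0).eval a.2).re - x1))
    (y0 + s * a.1 + (1 - q - a.1) * ((v.eval a.2).re - y1))
  have hG : Continuous G := by
    have h1 : Continuous fun a : ℝ × ℂ =>
        (x0 + d * a.1 + (1 - q - a.1) * (((u 0).eval a.2).re - x1),
          y0 + s * a.1 + (1 - q - a.1) * ((v.eval a.2).re - y1)) := by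
      have e1 : Continuous fun a : ℝ × ℂ => ((u 0).eval a.2).re :=
        Complex.continuous_re.comp ((u 0).continuous.comp continuous_snd)
      have e2 : Continuous fun a : ℝ × ℂ => (v.eval a.2).re :=
        Complex.continuous_re.comp (v.continuous.comp continuous_snd)
      fun_prop
    exact (cont_Phi hp).comp h1
  let Xi : ℝ → ℝ := fun t => cav fun w => G (t, w)
  have hX : Continuous Xi := cont_cav hG
  have hX1 : Xi (1 - q) = Phi c p x2 y2 := by
    show cav (fun w => G (1 - q, w)) = _
    have : (fun w : ℂ => G (1 - q, w)) = fun _ => Phi c p x2 y2 := by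
      funext w
      show Phi c p _ _ = _
      congr 1
      · rw [hx0, hd]; ring
      · rw [hy0, hs]; ring
    rw [this]
    unfold cav
    rw [Real.circleAverage_const]
  have hX2 : J - e ≤ Xi (-q) := by
    refine hJ.trans (le_of_eq ?_)
    show _ = cav (fun w => G (-q, w))
    congr 1
    funext w
    show _ = Phi c p _ _
    congr 1
    · rw [hx0, hd]; ring
    · rw [hy0, hs]; ring
  obtain ⟨B, hB0, hB2, hBX⟩ := hTV q hq0 hq1 Xi hX e he0
  obtain ⟨D, E, hDE⟩ := hE B (1 - q)
  obtain ⟨M0, hM0⟩ := hGR m u v hgrad B E D d s x0 y0 hsq.symm (Real.sqrt (ε / 4))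
    (Real.sqrt_pos.2 (by positivity))
  -- the double function
  let K : ℂ × ℂ → ℝ := fun a => G ((B.eval a.1).re, a.2)
  have hK : Continuous K := by
    refine hG.comp (Continuous.prodMk ?_ continuous_snd)
    exact Complex.continuous_re.comp (B.continuous.comp continuous_fst)
  have hlim := hED K hK
  have hcc : (cav fun z => cav fun w => K (z, w)) = cav fun z => Xi ((B.eval z).re) := rfl
  rw [hcc] at hlim
  obtain ⟨N0, hN0⟩ := (Metric.tendsto_atTop.1 hlim) e he0
  set M := max M0 (N0 + 1) with hM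
  have hM1 : 1 ≤ M := le_trans (by omega) (le_max_right M0 (N0 + 1))
  have hMM : M0 ≤ M := le_max_left _ _
  have hMN : N0 ≤ 2 * M + D - 1 := by
    have := le_max_right M0 (N0 + 1)
    omega
  set N := 2 * M + D - 1 with hN
  have hdist := hN0 N hMN
  rw [Real.dist_eq] at hdist
  have hg := hM0 M hMM
  -- the new data
  let u' : ℕ → ℂ[X] := fun i => if i = 0 then C (x0 : ℂ) + C (d : ℂ) * B + gl D M E (u 0)
    else if i ≤ m then gl D M E (u i) else C ((Real.sqrt (ε / 4) : ℝ) : ℂ) * X ^ M
  have hu'0 : u' 0 = C (x0 : ℂ) + C (d : ℂ) * B + gl D M E (u 0) := by simp [u']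
  have hu'1 : ∀ i, i < m → u' (i + 1) = gl D M E (u (i + 1)) := by
    intro i hi
    simp only [u']
    rw [if_neg (by omega), if_pos (by omega)]
  have hu'2 : u' (m + 1) = C ((Real.sqrt (ε / 4) : ℝ) : ℂ) * X ^ M := by
    simp only [u']
    rw [if_neg (by omega), if_neg (by omega)]
  refine ⟨m + 1, u', C (y0 : ℂ) + C (s : ℂ) * B + gl D M E v, ?_, ?_, ?_, ?_, ?_, ?_⟩
  · rw [hu'0]
    simp [gl_eval_zero hM1, hB0]
  · simp [gl_eval_zero hM1, hB0]
  · intro i
    simp only [u']
    rw [if_neg (by omega)]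
    split_ifs
    · exact gl_eval_zero hM1 _ _
    · simp only [eval_mul, eval_pow, eval_X, eval_C]
      rw [zero_pow (by omega), mul_zero]
  · intro z hz
    refine (hg z hz).trans (le_of_eq ?_)
    rw [Finset.sum_range_succ, Finset.sum_range_succ', hu'2, hu'0]
    have hsum : ∑ i ∈ Finset.range m, ‖(u' (i + 1)).derivative.eval z‖ ^ 2
        = ∑ i ∈ Finset.range m, ‖(gl D M E (u (i + 1))).derivative.eval z‖ ^ 2 :=
      Finset.sum_congr rfl fun i hi => by rw [hu'1 i (Finset.mem_range.1 hi)]
    rw [hsum]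
    ring
  · intro z hz
    rw [Finset.sum_range_succ, hu'2]
    have h1 : ∀ i ∈ Finset.range m, ‖(u' (i + 1)).eval z‖ ^ 2
        ≤ 9 * ‖(u (i + 1)).eval (z ^ N)‖ ^ 2 := by
      intro i hi
      rw [hu'1 i (Finset.mem_range.1 hi), gl_eval hM1 _ (hDE z hz), hui, sub_zero, norm_mul,
        mul_pow]
      apply mul_le_mul_of_nonneg_right _ (by positivity)
      rw [Complex.norm_real, Real.norm_eq_abs, sq_abs]
      have := abs_le.1 (hB2 z hz)
      nlinarith
    have h2 := Finset.sum_le_sum h1
    rw [← Finset.mul_sum] at h2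
    have hzN : ‖z ^ N‖ = 1 := by rw [norm_pow, hz, one_pow]
    have h3 := hsm (z ^ N) hzN
    have h4 : ‖(C ((Real.sqrt (ε / 4) : ℝ) : ℂ) * X ^ M : ℂ[X]).eval z‖ ^ 2 = ε / 4 := by
      simp only [eval_mul, eval_pow, eval_X, eval_C]
      rw [norm_mul, norm_pow, hz, one_pow, mul_one, Complex.norm_real, Real.norm_eq_abs, sq_abs,
        Real.sq_sqrt (by positivity)]
    rw [h4]
    rw [he] at h3
    linarith
  · have h5 : (cav fun z => Phi c p ((u' 0).eval z).re
        ((C (y0 : ℂ) + C (s : ℂ) * B + gl D M E v).eval z).re) = cav fun z => K (z, z ^ N) := by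
      apply cav_congr
      intro z hz
      show _ = Phi c p _ _
      rw [hu'0]
      congr 1
      · simp only [eval_add, eval_mul, eval_C]
        rw [gl_eval hM1 _ (hDE z hz), hu0]
        simp only [Complex.add_re, Complex.ofReal_re, Complex.re_ofReal_mul, Complex.sub_re]
        rw [← hN]
      · simp only [eval_add, eval_mul, eval_C]
        rw [gl_eval hM1 _ (hDE z hz), hv0]
        simp only [Complex.add_re, Complex.ofReal_re, Complex.re_ofReal_mul, Complex.sub_re]
        rw [← hN]
    rw [h5]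
    have h6 := (abs_lt.1 hdist).1
    have h7 := (abs_lt.1 hBX).1
    rw [hX1] at h7
    have h8 := mul_le_mul_of_nonneg_left hX2 (show 0 ≤ 1 - q by linarith)
    rw [he] at h6 h7 h8
    nlinarith

end W802.DS
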