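import Pool.Agent.W802.DS.Stms

/-! Project DS: iteration of the gluing step. -/

set_option autoImplicit false

namespace W802.DS

open Polynomial Filter Topology

theorem adm_const {c p : ℝ} (x y : ℝ) : Adm c p x y (Phi c p x y) := by
  intro ε hε
  refine ⟨0, fun i => if i = 0 then C (x : ℂ) else 0, C (y : ℂ), by simp, by simp, by simp,
    ?_, ?_, ?_⟩
  · intro z _
    simp
  · intro z _
    simpa using hε.le
  · have : (fun z : ℂ => Phi c p (((fun i : ℕ => if i = 0 then C (x : ℂ) else 0) 0).eval z).re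
        ((C (y : ℂ)).eval z).re) = fun _ => Phi c p x y := by
      funext z
      simp
    rw [this]
    unfold cav
    rw [Real.circleAverage_const]
    linarith

theorem Phi_smul {c p t a b : ℝ} (ht : 0 ≤ t) : Phi c p (t * a) (t * b) = t ^ p * Phi c p a b := by
  unfold Phi
  rw [abs_mul, abs_mul, abs_of_nonneg ht, Real.mul_rpow ht (abs_nonneg _),
    Real.mul_rpow ht (abs_nonneg _)]
  ring

/-- one cycle, `p ≥ 2` -/
theorem cycleA (hG : S_GLUE) {c p d j : ℝ} (hp : 1 < p) (hc : 0 ≤ c) (hd : 0 < d)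
    (hd1 : p * d < 1) (h : ∀ y : ℝ, 0 < y → Adm c p 0 y (y ^ p * j)) :
    ∀ y : ℝ, 0 < y → Adm c p 0 y (y ^ p *
      ((p * d / (1 + p * d) + 1 / (1 + p * d) * (p * d / (1 + 2 * d)) * (1 + 2 * d) ^ p)
          * Phi c p (1 / p) ((p - 1) / p)
        + 1 / (1 + p * d) * (1 - p * d / (1 + 2 * d)) * (1 + 2 * d) ^ p * j)) := by
  intro y hy
  have hp0 : 0 < p := by linarith
  have hpd : 0 < p * d := mul_pos hp0 hd
  have hl : 0 < 1 + 2 * d := by linarith
  have hq2 : p * d / (1 + 2 * d) < 1 := by
    rw [div_lt_one hl]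
    linarith
  have s2 := hG c p hp hc (p * d / (1 + 2 * d)) 0 ((1 + 2 * d) * y) (-((1 + 2 * d) * y * (1 / p)))
    ((1 + 2 * d) * y * ((p - 1) / p)) _ (by positivity) hq2 (by field_simp; ring)
    (h ((1 + 2 * d) * y) (by positivity))
  have s1 := hG c p hp hc (p * d / (1 + p * d)) _ _ (y * (1 / p)) (y * ((p - 1) / p)) _
    (by positivity) (by rw [div_lt_one (by linarith)]; linarith) (by field_simp; ring) s2
  have e1 : Phi c p (-((1 + 2 * d) * y * (1 / p))) ((1 + 2 * d) * y * ((p - 1) / p))
      = ((1 + 2 * d) * y) ^ p * Phi c p (1 / p) ((p - 1) / p) := by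
    rw [← Phi_smul (by positivity)]
    unfold Phi
    rw [abs_neg]
  have e2 : Phi c p (y * (1 / p)) (y * ((p - 1) / p)) = y ^ p * Phi c p (1 / p) ((p - 1) / p) :=
    Phi_smul hy.le
  rw [e1, e2, Real.mul_rpow hl.le hy.le] at s1
  have hl' : 0 < 1 + p * d := by linarith
  convert s1 using 1
  · field_simp
    ring
  · field_simp
    ring
  · field_simp
    ring

/-- one cycle, `p < 2` -/
theorem cycleB (hG : S_GLUE) {c p d j : ℝ} (hp : 1 < p) (hc : 0 ≤ c) (hd : 0 < d)
    (hd1 : p * d < 1) (h : ∀ y : ℝ, 0 < y → Adm c p y 0 (y ^ p * j)) :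
    ∀ y : ℝ, 0 < y → Adm c p y 0 (y ^ p *
      ((p * d / (1 + p * d) + 1 / (1 + p * d) * (p * d / (1 + 2 * d)) * (1 + 2 * d) ^ p)
          * Phi c p ((p - 1) / p) (1 / p)
        + 1 / (1 + p * d) * (1 - p * d / (1 + 2 * d)) * (1 + 2 * d) ^ p * j)) := by
  intro y hy
  have hp0 : 0 < p := by linarith
  have hpd : 0 < p * d := mul_pos hp0 hd
  have hl : 0 < 1 + 2 * d := by linarith
  have hq2 : p * d / (1 + 2 * d) < 1 := by
    rw [div_lt_one hl]
    linarith
  have s2 := hG c p hp hc (p * d / (1 + 2 * d)) ((1 + 2 * d) * y) 0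
    ((1 + 2 * d) * y * ((p - 1) / p)) (-((1 + 2 * d) * y * (1 / p))) _ (by positivity) hq2
    (by field_simp; ring) (h ((1 + 2 * d) * y) (by positivity))
  have s1 := hG c p hp hc (p * d / (1 + p * d)) _ _ (y * ((p - 1) / p)) (y * (1 / p)) _
    (by positivity) (by rw [div_lt_one (by linarith)]; linarith) (by field_simp; ring) s2
  have e1 : Phi c p ((1 + 2 * d) * y * ((p - 1) / p)) (-((1 + 2 * d) * y * (1 / p)))
      = ((1 + 2 * d) * y) ^ p * Phi c p ((p - 1) / p) (1 / p) := by
    rw [← Phi_smul (by positivity)]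
    unfold Phi
    rw [abs_neg]
  have e2 : Phi c p (y * ((p - 1) / p)) (y * (1 / p)) = y ^ p * Phi c p ((p - 1) / p) (1 / p) :=
    Phi_smul hy.le
  rw [e1, e2, Real.mul_rpow hl.le hy.le] at s1
  have hl' : 0 < 1 + p * d := by linarith
  convert s1 using 1
  · field_simp
    ring
  · field_simp
    ring
  · field_simp
    ring

/-- the factor of one cycle -/
noncomputable def rho (p d : ℝ) : ℝ :=
  1 / (1 + p * d) * (1 - p * d / (1 + 2 * d)) * (1 + 2 * d) ^ p

theorem rho_deriv {p : ℝ} (hp : 1 < p) : HasDerivAt (rho p) 0 0 := by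
  have h1 : HasDerivAt (fun d : ℝ => 1 + p * d) p 0 := by
    simpa using ((hasDerivAt_id (0 : ℝ)).const_mul p).const_add 1
  have h2 : HasDerivAt (fun d : ℝ => 1 + 2 * d) 2 0 := by
    simpa using ((hasDerivAt_id (0 : ℝ)).const_mul 2).const_add 1
  have h3 : HasDerivAt (fun d : ℝ => p * d) p 0 := by
    simpa using (hasDerivAt_id (0 : ℝ)).const_mul p
  have h4 : HasDerivAt (fun d : ℝ => 1 / (1 + p * d)) (-p) 0 := by
    have := (hasDerivAt_const (0 : ℝ) (1 : ℝ)).fun_div h1 (by simp)
    simpa using this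
  have h5 : HasDerivAt (fun d : ℝ => 1 - p * d / (1 + 2 * d)) (-p) 0 := by
    have := (h3.fun_div h2 (by simp)).const_sub 1
    simpa using this
  have h6 : HasDerivAt (fun d : ℝ => (1 + 2 * d) ^ p) (2 * p) 0 := by
    have := h2.rpow_const (p := p) (Or.inr hp.le)
    simpa using this
  have h7 := (h4.mul h5).mul h6
  have h8 : HasDerivAt (rho p) ((-p * (1 - p * 0 / (1 + 2 * 0)) + 1 / (1 + p * 0) * -p)
      * (1 + 2 * 0) ^ p + 1 / (1 + p * 0) * (1 - p * 0 / (1 + 2 * 0)) * (2 * p)) 0 := h7
  convert h8 using 1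
  simp
  ring

/-- real recursion -/
theorem recur {p f j0 M : ℝ} (hp : 1 < p) (hf : 0 < f) : ∃ d : ℝ, 0 < d ∧ p * d < 1 ∧
    ∀ js : ℕ → ℝ, js 0 = j0 → (∀ k, js (k + 1) =
      (p * d / (1 + p * d) + 1 / (1 + p * d) * (p * d / (1 + 2 * d)) * (1 + 2 * d) ^ p) * f
        + rho p d * js k) → ∃ k, M ≤ js k := by
  have hp0 : 0 < p := by linarith
  set R := |j0| + |M| + 1 with hR
  have hR0 : 0 < R := by positivity
  have h1 := (rho_deriv hp).isLittleO
  have hr0 : rho p 0 = 1 := by
    unfold rho
    simp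
  have h2 := h1.def (show 0 < p * f / (4 * R) by positivity)
  have h3 : ∀ᶠ d in 𝓝[>] (0 : ℝ), |rho p d - 1| ≤ p * f / (4 * R) * |d| := by
    have := h2.filter_mono (nhdsWithin_le_nhds (s := Set.Ioi 0))
    filter_upwards [this] with d hd
    simpa [hr0] using hd
  have h4 : ∀ᶠ d in 𝓝[>] (0 : ℝ), d < 1 / p :=
    Filter.Eventually.filter_mono nhdsWithin_le_nhds (gt_mem_nhds (by positivity))
  obtain ⟨d, hd1, hd2, hd3⟩ := (h3.and (h4.and self_mem_nhdsWithin)).exists
  have hd0 : 0 < d := hd3
  have hpd : p * d < 1 := by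
    rw [lt_div_iff₀ hp0] at hd2
    linarith
  refine ⟨d, hd0, hpd, ?_⟩
  intro js hj0 hjs
  by_contra hcon
  push Not at hcon
  rw [abs_of_pos hd0] at hd1
  set g := (p * d / (1 + p * d) + 1 / (1 + p * d) * (p * d / (1 + 2 * d)) * (1 + 2 * d) ^ p) * f
    with hg
  have hpd0 : 0 < p * d := mul_pos hp0 hd0
  have hg1 : p * d / 2 * f ≤ g := by
    rw [hg]
    apply mul_le_mul_of_nonneg_right _ hf.le
    have e1 : p * d / 2 ≤ p * d / (1 + p * d) :=
      div_le_div_of_nonneg_left hpd0.le (by linarith) (by linarith)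
    have e2 : 0 ≤ 1 / (1 + p * d) * (p * d / (1 + 2 * d)) * (1 + 2 * d) ^ p := by positivity
    linarith
  have hgp : 0 < g := lt_of_lt_of_le (by positivity) hg1
  have hk : ∀ k : ℕ, j0 + k * (g / 2) ≤ js k := by
    intro k
    induction k with
    | zero => simp [hj0]
    | succ k ih =>
      have hb : |js k| ≤ R := by
        rw [abs_le]
        constructor
        · have e3 : 0 ≤ (k : ℝ) * (g / 2) := by positivity
          have e4 := neg_abs_le j0
          have e5 := abs_nonneg M
          rw [hR]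
          linarith
        · have e4 := hcon k
          have e5 := le_abs_self M
          have e6 := abs_nonneg j0
          rw [hR]
          linarith
      have hc : |(rho p d - 1) * js k| ≤ g / 2 := by
        rw [abs_mul]
        calc |rho p d - 1| * |js k| ≤ (p * f / (4 * R) * d) * R :=
              mul_le_mul hd1 hb (abs_nonneg _) (by positivity)
          _ = p * d / 2 * f / 2 := by
              field_simp
              ring
          _ ≤ g / 2 := by linarith
      have hc1 := (abs_le.1 hc).1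
      have : js (k + 1) = g + js k + (rho p d - 1) * js k := by
        rw [hjs k]
        ring
      rw [this]
      push_cast
      linarith
  obtain ⟨k, hk1⟩ := exists_nat_gt ((M - j0) / (g / 2))
  have h5 := hk k
  have h6 := hcon k
  rw [div_lt_iff₀ (by positivity)] at hk1
  linarith

theorem iter (hG : S_GLUE) : S_ITER := by
  intro p hp c hc hlt
  have hp0 : 0 < p := by linarith
  rcases le_or_gt 2 p with hp2 | hp2
  · have hm : c < p - 1 := by
      have : p / (p - 1) ≤ p := by
        rw [div_le_iff₀ (by linarith)]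
        nlinarith
      rwa [max_eq_left this] at hlt
    have hf : 0 < Phi c p (1 / p) ((p - 1) / p) := by
      unfold Phi
      rw [abs_of_nonneg (div_nonneg (by linarith) hp0.le), abs_of_pos (by positivity),
        ← Real.mul_rpow hc (by positivity)]
      have : (c * (1 / p)) ^ p < ((p - 1) / p) ^ p := by
        apply Real.rpow_lt_rpow (by positivity) _ hp0
        rw [mul_one_div]
        exact div_lt_div_of_pos_right hm hp0
      linarith
    obtain ⟨d, hd, hpd, hrec⟩ := recur (p := p) (f := Phi c p (1 / p) ((p - 1) / p)) (j0 := 1)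
      (M := c ^ p + 1) hp hf
    let js : ℕ → ℝ := fun k => Nat.rec 1 (fun _ j =>
      (p * d / (1 + p * d) + 1 / (1 + p * d) * (p * d / (1 + 2 * d)) * (1 + 2 * d) ^ p) *
        Phi c p (1 / p) ((p - 1) / p) + rho p d * j) k
    obtain ⟨k, hk⟩ := hrec js rfl (fun k => rfl)
    have hA : ∀ k : ℕ, ∀ y : ℝ, 0 < y → Adm c p 0 y (y ^ p * js k) := by
      intro k
      induction k with
      | zero =>
        intro y hy
        have h := adm_const (c := c) (p := p) 0 y
        have e : Phi c p 0 y = y ^ p * js 0 := by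
          show _ = y ^ p * 1
          unfold Phi
          rw [abs_zero, Real.zero_rpow hp0.ne', abs_of_pos hy]
          ring
        rwa [e] at h
      | succ k ih => exact cycleA hG hp hc hd hpd ih
    have h1 := hA k 1 one_pos
    have h2 := hG c p hp hc (1 / 2) 0 1 1 0 _ (by norm_num) (by norm_num) (by norm_num) h1
    refine ⟨_, _, _, ?_, ?_, h2⟩
    · norm_num
    · unfold Phi
      rw [abs_zero, Real.zero_rpow hp0.ne', abs_one, Real.one_rpow]
      linarith
  · have hm : c * (p - 1) < 1 := by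
      have h1 : p ≤ p / (p - 1) := by
        rw [le_div_iff₀ (by linarith)]
        nlinarith
      rw [max_eq_right h1] at hlt
      have h2 : p / (p - 1) - 1 = 1 / (p - 1) := by
        have : p - 1 ≠ 0 := by linarith
        field_simp
        ring
      rw [h2, lt_div_iff₀ (by linarith)] at hlt
      exact hlt
    have hf : 0 < Phi c p ((p - 1) / p) (1 / p) := by
      unfold Phi
      rw [abs_of_nonneg (div_nonneg (by linarith) hp0.le), abs_of_pos (by positivity),
        ← Real.mul_rpow hc (div_nonneg (by linarith) hp0.le)]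
      have : (c * ((p - 1) / p)) ^ p < (1 / p) ^ p := by
        apply Real.rpow_lt_rpow (mul_nonneg hc (div_nonneg (by linarith) hp0.le)) _ hp0
        rw [← mul_div_assoc]
        exact div_lt_div_of_pos_right hm hp0
      linarith
    obtain ⟨d, hd, hpd, hrec⟩ := recur (p := p) (f := Phi c p ((p - 1) / p) (1 / p))
      (j0 := -c ^ p) (M := 1) hp hf
    let js : ℕ → ℝ := fun k => Nat.rec (-c ^ p) (fun _ j =>
      (p * d / (1 + p * d) + 1 / (1 + p * d) * (p * d / (1 + 2 * d)) * (1 + 2 * d) ^ p) *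
        Phi c p ((p - 1) / p) (1 / p) + rho p d * j) k
    obtain ⟨k, hk⟩ := hrec js rfl (fun k => rfl)
    have hA : ∀ k : ℕ, ∀ y : ℝ, 0 < y → Adm c p y 0 (y ^ p * js k) := by
      intro k
      induction k with
      | zero =>
        intro y hy
        have h := adm_const (c := c) (p := p) y 0
        have e : Phi c p y 0 = y ^ p * js 0 := by
          show _ = y ^ p * -c ^ p
          unfold Phi
          rw [abs_zero, Real.zero_rpow hp0.ne', abs_of_pos hy]
          ring
        rwa [e] at h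
      | succ k ih => exact cycleB hG hp hc hd hpd ih
    have h1 := hA k 1 one_pos
    refine ⟨_, _, _, ?_, ?_, h1⟩
    · norm_num
    · rw [Real.one_rpow, one_mul]
      linarith

end W802.DS
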