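import Mathlib

/-! Project DS: best constant for differentially subordinate harmonic functions (`MP_540347_an`).
Definitions and statements of the parts. -/

set_option autoImplicit false

namespace W802.DS

open Polynomial Filter Topology

/-- mean over the unit circle -/
noncomputable def cav (f : ℂ → ℝ) : ℝ := Real.circleAverage f 0 1

/-- the functional -/
noncomputable def Phi (c p x y : ℝ) : ℝ := |y| ^ p - c ^ p * |x| ^ p

/-- `(x, y)` is the starting point of pairs of harmonic polynomials on the disc, the second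
differentially subordinate to the first (whose components other than the real part of `u 0` are
as small as we like), with `∫ Φ ≥ J - ε`. -/
def Adm (c p x y J : ℝ) : Prop := ∀ ε : ℝ, 0 < ε → ∃ (m : ℕ) (u : ℕ → ℂ[X]) (v : ℂ[X]),
  (u 0).eval 0 = (x : ℂ) ∧ v.eval 0 = (y : ℂ) ∧ (∀ i, (u (i + 1)).eval 0 = 0) ∧
  (∀ z : ℂ, ‖z‖ ≤ 1 → ‖v.derivative.eval z‖ ^ 2 ≤
    ∑ i ∈ Finset.range (m + 1), ‖(u i).derivative.eval z‖ ^ 2) ∧
  (∀ z : ℂ, ‖z‖ = 1 → ∑ i ∈ Finset.range m, ‖(u (i + 1)).eval z‖ ^ 2 ≤ ε) ∧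
  J - ε ≤ cav fun z => Phi c p ((u 0).eval z).re (v.eval z).re

/-- two-valued approximation: real parts of polynomials vanishing at the origin are almost equal to
`1 - q` on a part of measure `q` of the circle and to `-q` on the rest -/
def S_TV : Prop := ∀ q : ℝ, 0 < q → q < 1 → ∀ X : ℝ → ℝ, Continuous X → ∀ ε : ℝ, 0 < ε →
  ∃ B : ℂ[X], B.eval 0 = 0 ∧ (∀ z : ℂ, ‖z‖ = 1 → |(B.eval z).re| ≤ 2) ∧
    |cav (fun z => X ((B.eval z).re)) - (q * X (1 - q) + (1 - q) * X (-q))| < ε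

/-- fast variables become independent -/
def S_ED : Prop := ∀ K : ℂ × ℂ → ℝ, Continuous K →
  Tendsto (fun N : ℕ => cav fun z => K (z, z ^ N)) atTop (𝓝 (cav fun z => cav fun w => K (z, w)))

/-- real trigonometric polynomials: `z ^ D * (α - Re B z)` is a polynomial in `z` on the circle -/
def S_E : Prop := ∀ (B : ℂ[X]) (α : ℝ), ∃ (D : ℕ) (E : ℂ[X]), ∀ z : ℂ, ‖z‖ = 1 →
  E.eval z = z ^ D * ((α - (B.eval z).re : ℝ) : ℂ)

/-- the glued polynomial: on the circle it is `η(z) (P(z^N) - P(0))` with `N = 2 M + D - 1` if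
`E(z) = z^D η(z)` there -/
noncomputable def gl (D M : ℕ) (E P : ℂ[X]) : ℂ[X] :=
  X ^ (2 * M - 1) * E * (P.divX.comp (X ^ (2 * M + D - 1)))

/-- gluing keeps differential subordination, at the price of one more small component -/
def S_GR : Prop := ∀ (m : ℕ) (u : ℕ → ℂ[X]) (v : ℂ[X]),
  (∀ z : ℂ, ‖z‖ ≤ 1 → ‖v.derivative.eval z‖ ^ 2 ≤
    ∑ i ∈ Finset.range (m + 1), ‖(u i).derivative.eval z‖ ^ 2) →
  ∀ (B E : ℂ[X]) (D : ℕ) (d s x y : ℝ), s ^ 2 = d ^ 2 → ∀ δ : ℝ, 0 < δ → ∃ M0 : ℕ, ∀ M : ℕ, M0 ≤ M →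
  ∀ z : ℂ, ‖z‖ ≤ 1 →
    ‖(C (y : ℂ) + C (s : ℂ) * B + gl D M E v).derivative.eval z‖ ^ 2 ≤
      ‖(C (x : ℂ) + C (d : ℂ) * B + gl D M E (u 0)).derivative.eval z‖ ^ 2
      + ∑ i ∈ Finset.range m, ‖(gl D M E (u (i + 1))).derivative.eval z‖ ^ 2
      + ‖(C (δ : ℂ) * X ^ M).derivative.eval z‖ ^ 2

/-- the gluing step for admissible points -/
def S_GLUE : Prop := ∀ c p : ℝ, 1 < p → 0 ≤ c → ∀ (q x1 y1 x2 y2 J : ℝ), 0 < q → q < 1 →
  (x2 - x1) ^ 2 = (y2 - y1) ^ 2 → Adm c p x1 y1 J →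
  Adm c p (q * x2 + (1 - q) * x1) (q * y2 + (1 - q) * y1) (q * Phi c p x2 y2 + (1 - q) * J)

/-- iteration: some admissible starting point with `|y| ≤ |x|` and positive value -/
def S_ITER : Prop := ∀ p : ℝ, 1 < p → ∀ c : ℝ, 0 ≤ c → c < max p (p / (p - 1)) - 1 →
  ∃ x y J : ℝ, |y| ≤ |x| ∧ 0 < J ∧ Adm c p x y J

/-- the conclusion of `S04695` from an admissible point for a larger constant -/
def S_FIN : Prop := ∀ p : ℝ, 1 < p → ∀ c c' : ℝ, 0 ≤ c → c < c' → ∀ x y J : ℝ, |y| ≤ |x| → 0 < J →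
  Adm c' p x y J →
  ∃ (n : ℕ) (H : Type) (_ : NormedAddCommGroup H) (_ : InnerProductSpace ℝ H)
    (_ : CompleteSpace H)
    (D : Set (EuclideanSpace ℝ (Fin n))) (x₀ : EuclideanSpace ℝ (Fin n))
    (u v : EuclideanSpace ℝ (Fin n) → H),
    IsOpen D ∧ IsConnected D ∧ x₀ ∈ D ∧
    InnerProductSpace.HarmonicOnNhd u D ∧ InnerProductSpace.HarmonicOnNhd v D ∧
    (∀ x ∈ D,
      ∑ i : Fin n, ‖fderiv ℝ v x (EuclideanSpace.single i (1 : ℝ))‖ ^ 2 ≤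
        ∑ i : Fin n, ‖fderiv ℝ u x (EuclideanSpace.single i (1 : ℝ))‖ ^ 2) ∧
    ‖v x₀‖ ≤ ‖u x₀‖ ∧
    ∃ h : EuclideanSpace ℝ (Fin n) → ℝ,
      InnerProductSpace.HarmonicOnNhd h D ∧ (∀ x ∈ D, ‖u x‖ ^ p ≤ h x) ∧
      ∃ ε : ℝ, 0 < ε ∧
        ∀ g : EuclideanSpace ℝ (Fin n) → ℝ,
          InnerProductSpace.HarmonicOnNhd g D →
          (∀ x ∈ D, ‖v x‖ ^ p ≤ g x) →
          c ^ p * h x₀ + ε ≤ g x₀

end W802.DS
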